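import Pool.Agent.H18.XX.TB
import Pool.Agent.H18.EI.LOA

/-!
# The exponential hierarchy in EQP: row GDZ (a good instance depends on finitely many strings)
-/

set_option autoImplicit false

namespace Pool.Agent.H19.XX

open Finset Pool.Agent.H6.NB Pool.Agent.H70.OQ Pool.Agent.H70.EH Pool.Agent.H70.EI
open Pool.Agent.H78.XQ Pool.Agent.H66.IQ Pool.Agent.H66.AV Pool.Agent.H18.XX
open Pool.Agent.H66.IP (ins sp dm scl)
open Pool.Agent.H75.OM (BPos)

theorem gdz_ex {α β : Type} [Finite α] (f : α → β) : {w : β | ∃ x, w = f x}.Finite :=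
  (Set.finite_range f).subset fun w hw => by
    obtain ⟨x, hx⟩ := hw
    exact ⟨x, hx.symm⟩

theorem gdz_ex3 {α β γ δ : Type} [Finite α] [Finite β] [Finite γ] (f : α → β → γ → δ) :
    {w : δ | ∃ u v b, w = f u v b}.Finite :=
  (Set.finite_range fun x : α × β × γ => f x.1 x.2.1 x.2.2).subset fun w hw => by
    obtain ⟨u, v, b, hw⟩ := hw
    exact ⟨(u, v, b), hw.symm⟩

/-- the output of a decision tree depends on the strings which it may query -/
theorem gdz_eval {m : ℕ} {O O' : List Bool → Bool} (h : ∀ w : List Bool, w.length ≤ m → O w = O' w)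
    (T : DT) (hT : T.Short m) : T.eval O = T.eval O' := by
  induction T with
  | leaf b => rfl
  | node w l r hl hr =>
    obtain ⟨h1, h2, h3⟩ := hT
    simp only [DT.eval]
    rw [hl h2, hr h3, h w h1]

/-- the language of a machine depends on the short strings -/
theorem gdz_lang (M : ATM) (x : List Bool) {O O' : List Bool → Bool}
    (h : ∀ w : List Bool, w.length ≤ M.time x.length → O w = O' w) :
    x ∈ M.lang O ↔ x ∈ M.lang O' := by
  refine Pool.Agent.H18.EI.alt_congr _ _ _ _ _ fun ws hl hws => ?_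
  rw [gdz_eval h _ (M.short x ws hl hws)]

theorem pf_GDZ : T_GDZ := by
  intro V p
  have hb : ∃ L, ∀ w, BPos (dm (lx V)) p w → w.length ≤ L := by
    have hf : {w : List Bool | BPos (dm (lx V)) p w}.Finite := by
      unfold BPos
      exact (gdz_ex3 _).union (gdz_ex _)
    obtain ⟨L, hL⟩ := (hf.image List.length).bddAbove
    exact ⟨L, fun w hw => hL ⟨w, hw, rfl⟩⟩
  obtain ⟨L, hL⟩ := hb
  refine ⟨max L ((V p.1).M.time p.2.length), fun O O' h hG => ?_⟩
  have h1 : ax V O p = ax V O' p := by
    unfold ax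
    rw [decide_eq_decide]
    exact gdz_lang _ _ fun w hw => h w (le_trans hw (le_max_right _ _))
  have h2 : cps O (sp (lx V) p) = cps O' (sp (lx V) p) := by
    funext u v
    exact h _ (le_trans (hL _ (Or.inl ⟨u, v.2, v.1, rfl⟩)) (le_max_left _ _))
  have h3 : cst O (sp (lx V) p) = cst O' (sp (lx V) p) := by
    funext z
    exact h _ (le_trans (hL _ (Or.inr ⟨z, rfl⟩)) (le_max_left _ _))
  unfold GoodZ at hG ⊢
  rw [← h1, ← h2, ← h3]
  exact hG

end Pool.Agent.H19.XX
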