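import Pool.Agent.H18.XX.TB

/-!
# The exponential hierarchy in EQP: row NUZ (numbers)
-/

set_option autoImplicit false

namespace Pool.Agent.H19.XX

open Pool.Agent.H18.XX

theorem nuz_sq {L : ℕ} (hL : 12 ≤ L) : 16 * L ^ 2 ≤ 2 ^ L := by
  induction L, hL using Nat.le_induction with
  | base => norm_num
  | succ L hL ih =>
    rw [pow_succ 2 L]
    nlinarith

theorem nuz_lin (j : ℕ) : 2 * (4 * j + 9) + 1 ≤ 2 ^ (j + 5) := by
  have h1 : j < 2 ^ j := Nat.lt_two_pow_self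
  have h2 : 2 ^ (j + 5) = 32 * 2 ^ j := by ring
  omega

/-- a power of `1 / 2` which is small against `x ^ 2` and `y` -/
theorem nuz_pow {j e m : ℕ} (h : 2 * j + e + 10 ≤ m) :
    (1 / 2 : ℝ) ^ m ≤ ((1 / 2) ^ j) ^ 2 * (1 / 2) ^ e / 1024 := by
  calc (1 / 2 : ℝ) ^ m ≤ (1 / 2) ^ (2 * j + e + 10) :=
        pow_le_pow_of_le_one (by norm_num) (by norm_num) h
    _ = _ := by
      rw [pow_add, pow_add, pow_mul']
      norm_num
      ring

theorem pf_NUZ : T_NUZ := by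
  refine ⟨2 ^ 12, fun n hn L j hL hj => ?_⟩
  have hn0 : n ≠ 0 := by
    have : (0 : ℕ) < 2 ^ 12 := by norm_num
    omega
  have hL12 : 12 ≤ L := by
    rw [hL]
    exact Nat.le_log_of_pow_le (by norm_num) hn
  have hLn : 2 ^ L ≤ n := by
    rw [hL]
    exact Nat.pow_log_le_self 2 hn0
  have hsq := nuz_sq hL12
  have hcu : (L + 18) ^ 3 = L ^ 2 * L + 54 * L ^ 2 + 972 * L + 5832 := by ring
  obtain ⟨u, hu⟩ : ∃ u : ℕ, u = L ^ 2 := ⟨_, rfl⟩
  have hu144 : 144 ≤ u := by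
    rw [hu]
    nlinarith
  rw [← hu] at hj hsq hcu ⊢
  have hj1 : 16 * j ≤ u := by
    rw [hj]
    exact Nat.mul_div_le u 16
  have hj2 : u < 16 * j + 16 := by
    rw [hj]
    omega
  have hlin := nuz_lin j
  have h4 : 4 ^ (4 * j + 9) = 2 ^ (8 * j + 18) := by
    rw [show (4 : ℕ) = 2 ^ 2 from rfl, ← pow_mul]
    congr 1
    ring
  refine ⟨?_, ?_, ?_, ?_⟩
  · rw [h4]
    calc (2 * (4 * j + 9) + 1) * 2 ^ (8 * j + 18) * 2 ^ u ≤
          2 ^ (j + 5) * 2 ^ (8 * j + 18) * 2 ^ u :=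
          Nat.mul_le_mul_right _ (Nat.mul_le_mul_right _ hlin)
      _ = 2 ^ (9 * j + 23 + u) := by
        rw [← pow_add, ← pow_add]
        congr 1
        ring
      _ ≤ 2 ^ (2 * u) := Nat.pow_le_pow_right (by norm_num) (by omega)
  · rw [h4]
    calc 2 ^ (3 * j + 5) * ((2 * (4 * j + 9) + 1) * 2 ^ (8 * j + 18) * 2 ^ u) ≤
          2 ^ (3 * j + 5) * (2 ^ (j + 5) * 2 ^ (8 * j + 18) * 2 ^ u) :=
          Nat.mul_le_mul_left _ (Nat.mul_le_mul_right _ (Nat.mul_le_mul_right _ hlin))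
      _ = 2 ^ (12 * j + 28 + u) := by
        rw [← pow_add, ← pow_add, ← pow_add]
        congr 1
        ring
      _ ≤ 2 ^ (2 * u) := Nat.pow_le_pow_right (by norm_num) (by omega)
  · have h5 : ((2 ^ (3 * j + 5) : ℕ) : ℝ) * (1 / 2) ^ (4 * j + 9) = (1 / 2) ^ (j + 4) := by
      push_cast
      have h6 : (1 / 2 : ℝ) ^ (4 * j + 9) = (1 / 2) ^ (3 * j + 5) * (1 / 2) ^ (j + 4) := by
        rw [← pow_add]
        congr 1
        ring
      rw [h6, ← mul_assoc, ← mul_pow]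
      norm_num
    rw [h5, pow_add]
    have h7 : (0 : ℝ) < (1 / 2) ^ j := by positivity
    norm_num
    linarith
  · obtain ⟨e, he⟩ : ∃ e : ℕ, e = u / 8 := ⟨_, rfl⟩
    rw [← he]
    have he1 : e ≤ 2 * j + 1 := by omega
    have he2 : 8 * e ≤ u := by omega
    have h5 : 2 * j + e + 10 ≤ n / 3 := by omega
    have h6 : 2 * j + e + 10 ≤ (L + 18) ^ 3 := by
      rw [hcu]
      have : 0 ≤ u * L := Nat.zero_le _
      omega
    have hy := nuz_pow h5
    have hz := nuz_pow h6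
    obtain ⟨x, hx⟩ : ∃ x : ℝ, x = (1 / 2) ^ j := ⟨_, rfl⟩
    obtain ⟨y, hy'⟩ : ∃ y : ℝ, y = (1 / 2) ^ (n / 3) := ⟨_, rfl⟩
    obtain ⟨z, hz'⟩ : ∃ z : ℝ, z = (1 / 2) ^ (L + 18) ^ 3 := ⟨_, rfl⟩
    obtain ⟨v, hv⟩ : ∃ v : ℝ, v = (1 / 2) ^ e := ⟨_, rfl⟩
    have hx0 : 0 < x := by
      rw [hx]
      positivity
    have hx1 : x ≤ 1 := by
      rw [hx]
      exact pow_le_one₀ (by norm_num) (by norm_num)
    have hv0 : 0 < v := by
      rw [hv]
      positivity
    have hw : 2 / x * (1 / ((2 ^ (3 * j + 5) : ℕ) : ℝ)) ≤ v / 8 := by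
      have h7 : 2 / x * (1 / ((2 ^ (3 * j + 5) : ℕ) : ℝ)) = (1 / 2) ^ (2 * j + 4) := by
        rw [hx]
        push_cast
        have h8 : (1 : ℝ) / 2 ^ (3 * j + 5) = (1 / 2) ^ j * (1 / 2) ^ (2 * j + 5) := by
          rw [← pow_add, one_div_pow]
          congr 2
          ring
        have h9 : (1 / 2 : ℝ) ^ (2 * j + 5) = (1 / 2) ^ (2 * j + 4) * (1 / 2) := by
          rw [← pow_succ]
        have h10 : (1 / 2 : ℝ) ^ j ≠ 0 := by positivity
        rw [h8, h9]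
        field_simp
      rw [h7, hv]
      calc (1 / 2 : ℝ) ^ (2 * j + 4) ≤ (1 / 2) ^ (e + 3) :=
            pow_le_pow_of_le_one (by norm_num) (by norm_num) (by omega)
        _ = _ := by
          rw [pow_add]
          norm_num
          ring
    rw [← hx, ← hv, ← hy'] at hy
    rw [← hx, ← hv, ← hz'] at hz
    rw [← hx, ← hv, ← hy', ← hz']
    have a1 : 32 / x ^ 2 * y ≤ v / 32 := by
      calc 32 / x ^ 2 * y ≤ 32 / x ^ 2 * (x ^ 2 * v / 1024) :=
            mul_le_mul_of_nonneg_left hy (by positivity)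
        _ = v / 32 := by
          field_simp
          norm_num
    have a2 : 2 / x * (2 * y) ≤ v / 256 := by
      calc 2 / x * (2 * y) ≤ 2 / x * (2 * (x ^ 2 * v / 1024)) :=
            mul_le_mul_of_nonneg_left (by linarith) (by positivity)
        _ = v / 256 * x := by
          field_simp
          norm_num
        _ ≤ v / 256 := mul_le_of_le_one_right (by positivity) hx1
    have a3 : (36 / x ^ 2 + 4 / x) * z ≤ v / 16 := by
      calc (36 / x ^ 2 + 4 / x) * z ≤ (36 / x ^ 2 + 4 / x) * (x ^ 2 * v / 1024) :=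
            mul_le_mul_of_nonneg_left hz (by positivity)
        _ = 36 * (v / 1024) + 4 * (v / 1024) * x := by
          field_simp
        _ ≤ 36 * (v / 1024) + 4 * (v / 1024) :=
          add_le_add le_rfl (mul_le_of_le_one_right (by positivity) hx1)
        _ ≤ v / 16 := by linarith
    rw [mul_add (2 / x)]
    linarith

end Pool.Agent.H19.XX
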